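import Pool.Agent.Helper49.MI.Basic

/-!
# Row ATT of project MP_a2630c_MI: the minimum is attained
-/

open MeasureTheory Set Metric Real Filter Topology
open scoped RealInnerProductSpace ENNReal
open Pool.Agent.Helper73.MI

set_option linter.unusedSectionVars false

universe w

namespace Pool.Agent.Helper49.MI

section

variable {V : Type w} [NormedAddCommGroup V] [InnerProductSpace ℝ V] [FiniteDimensional ℝ V]
  [MeasurableSpace V] [BorelSpace V] {D : Set V} {F : V → ℝ} {Y : V → V}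
  {ξ τ : V → ℝ} {P : V → V →L[ℝ] V} {lam : ℝ} {vv : V → V} {Pi : V → V →L[ℝ] V}

theorem WQ_bound (hbd : S_bd.{w}) (h : MD D F Y ξ τ P lam) (hI : INV D Y P vv Pi) (a : V) :
    ∃ C, 0 ≤ C ∧ ∀ v, ∀ y ∈ Sv F τ v, |Wf F τ v y * QQ ξ Pi a (vv y)| ≤ C := by
  obtain ⟨C, hC0, b1, b2, b3⟩ := hbd h hI
  refine ⟨2 * C ^ 2 * ‖a‖ ^ 2 + 2 * C * ‖a‖ ^ 2, by positivity, fun v y hy => ?_⟩
  have hyD := Sv_sub h v hy
  have hx := h.xpos (vv y)
  have hW : 0 < Wf F τ v y := hy
  have hWF : Wf F τ v y ≤ ξ (vv y) ^ 2 := by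
    rw [← F_eq h hI hyD]
    exact W_le v y
  have hxv : ξ (vv y) * ‖vv y‖ ≤ C :=
    (mul_le_mul_of_nonneg_left (norm_le_nn (vv y)) hx.le).trans (b1 _)
  have hxv0 : 0 ≤ ξ (vv y) * ‖vv y‖ := by positivity
  have e1 : |QQ ξ Pi a (vv y)| ≤ 2 * (‖vv y‖ * ‖a‖) ^ 2 +
      2 * ξ (vv y) * (‖Pi (vv y)‖ * ‖a‖ * ‖a‖) := by
    unfold QQ
    refine (abs_sub _ _).trans (add_le_add ?_ ?_)
    · rw [abs_mul, abs_pow, abs_two]
      have := abs_real_inner_le_norm (vv y) a
      gcongr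
    · rw [abs_mul, abs_mul, abs_two, abs_of_pos hx]
      have h1 := abs_real_inner_le_norm (Pi (vv y) a) a
      have h2 := (Pi (vv y)).le_opNorm a
      have h3 : ‖Pi (vv y) a‖ * ‖a‖ ≤ ‖Pi (vv y)‖ * ‖a‖ * ‖a‖ := by gcongr
      have h4 := h1.trans h3
      gcongr
  rw [abs_mul, abs_of_pos hW]
  calc Wf F τ v y * |QQ ξ Pi a (vv y)| ≤ ξ (vv y) ^ 2 * (2 * (‖vv y‖ * ‖a‖) ^ 2 +
      2 * ξ (vv y) * (‖Pi (vv y)‖ * ‖a‖ * ‖a‖)) :=
        mul_le_mul hWF e1 (abs_nonneg _) (by positivity)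
    _ = 2 * (ξ (vv y) * ‖vv y‖) ^ 2 * ‖a‖ ^ 2 + 2 * (ξ (vv y) ^ 3 * ‖Pi (vv y)‖) * ‖a‖ ^ 2 := by
        ring
    _ ≤ 2 * C ^ 2 * ‖a‖ ^ 2 + 2 * C * ‖a‖ ^ 2 := by
        have := b2 (vv y)
        gcongr

/-- **(ATT)** -/
theorem att (hcsi : S_csi.{w}) (hbd : S_bd.{w}) : S_att.{w} := by
  intro V _ _ _ _ _ D F Y ξ τ P lam vv Pi h hI a
  classical
  obtain ⟨C1, hC1, hWQ⟩ := WQ_bound hbd h hI a
  obtain ⟨C, hC0, b1, b2, b3⟩ := hbd h hI
  obtain ⟨Cs, hCs⟩ := h.svol
  obtain ⟨Q, c, hQ, hQD, hc, hlow⟩ := h.low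
  have hl := h.lpos
  set q := QQ ξ Pi a with hq
  -- the mass
  have hN : ∀ v, 0 < ∫ y in Sv F τ v, Wf F τ v y := xi_pos_N h
  have hWnn : ∀ v, 0 ≤ᵐ[volume.restrict (Sv F τ v)] Wf F τ v := fun v =>
    (ae_restrict_iff' (Sv_open h.Fcont v).measurableSet).2
      (Eventually.of_forall fun y (hy : 0 < Wf F τ v y) => hy.le)
  have hNQ : ∀ v, ∫ y in Sv F τ v ∩ Q, Wf F τ v y ≤ ∫ y in Sv F τ v, Wf F τ v y := fun v =>
    setIntegral_mono_set (W_int h v) (hWnn v) (inter_subset_left.eventuallyLE)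
  have hNc : ∀ v, c / nn v ≤ ∫ y in Sv F τ v, Wf F τ v y := fun v => by
    have h1 := hlow v
    have h2 := nn_pos v
    rw [div_le_iff₀ h2]
    nlinarith [hNQ v]
  -- lower bound
  have hCs0 : 0 ≤ Cs := (mul_nonneg (nn_pos (0 : V)).le ENNReal.toReal_nonneg).trans (hCs 0)
  have hlb : ∀ v, -(C1 * Cs / c) ≤ q v := by
    intro v
    obtain ⟨i1, i2⟩ := hcsi h hI a v
    have hSo := Sv_open (τ := τ) h.Fcont v
    have hvol : (volume (Sv F τ v)).toReal ≤ Cs / nn v := by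
      rw [le_div_iff₀ (nn_pos v)]
      linarith [hCs v]
    have h1 : -(C1 * (Cs / nn v)) ≤ ∫ y in Sv F τ v, Wf F τ v y * QQ ξ Pi a (vv y) := by
      have h2 : ‖∫ y in Sv F τ v, Wf F τ v y * QQ ξ Pi a (vv y)‖ ≤
          C1 * volume.real (Sv F τ v) :=
        norm_setIntegral_le_of_norm_le_const (Sv_bdd h v).measure_lt_top fun y hy => by
          rw [Real.norm_eq_abs]
          exact hWQ v y hy
      rw [Real.norm_eq_abs] at h2
      have h3 := neg_le_of_abs_le h2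
      have h4 : C1 * volume.real (Sv F τ v) ≤ C1 * (Cs / nn v) :=
        mul_le_mul_of_nonneg_left hvol hC1
      linarith
    have h5 : -(C1 * (Cs / nn v)) ≤ q v * ∫ y in Sv F τ v, Wf F τ v y := h1.trans i2
    by_contra hneg
    push Not at hneg
    have hq0 : q v < 0 := hneg.trans_le (by
      have : 0 ≤ C1 * Cs / c := by positivity
      linarith)
    have h6 : q v * (∫ y in Sv F τ v, Wf F τ v y) ≤ q v * (c / nn v) :=
      mul_le_mul_of_nonpos_left (hNc v) hq0.le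
    have h7 : q v * (c / nn v) < -(C1 * Cs / c) * (c / nn v) :=
      mul_lt_mul_of_pos_right hneg (div_pos hc (nn_pos v))
    have h8 : -(C1 * Cs / c) * (c / nn v) = -(C1 * (Cs / nn v)) := by
      field_simp
    linarith
  have hbb : BddBelow (range q) := ⟨-(C1 * Cs / c), by rintro _ ⟨v, rfl⟩; exact hlb v⟩
  set m := ⨅ v, q v with hm
  have hmq : ∀ v, m ≤ q v := fun v => ciInf_le hbb v
  -- the minimum on Q
  have hQne : Q.Nonempty := by
    rw [nonempty_iff_ne_empty]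
    rintro rfl
    have := hlow 0
    simp at this
    linarith
  obtain ⟨y0, hy0, hmin⟩ := hQ.exists_isMinOn hQne ((QQ_vv_cont h hI a).mono hQD)
  refine ⟨vv y0, fun v => le_trans ?_ (hmq v)⟩
  set mQ := q (vv y0) with hmQ
  have hmmQ : m ≤ mQ := hmq _
  set θ := c / (2 * lam * C) with hθ
  have hθ0 : 0 < θ := by positivity
  have key : ∀ u, m + (mQ - m) * θ ≤ q u := by
    intro u
    obtain ⟨i1, i2⟩ := hcsi h hI a u
    have hSo := Sv_open (τ := τ) h.Fcont u
    have iW := W_int h u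
    have iWQ : IntegrableOn (Q.indicator (Wf F τ u)) (Sv F τ u) := iW.indicator hQ.measurableSet
    set N := ∫ y in Sv F τ u, Wf F τ u y with hNdef
    set B := ∫ y in Sv F τ u ∩ Q, Wf F τ u y with hB
    have h1 : m * N + (mQ - m) * B ≤ ∫ y in Sv F τ u, Wf F τ u y * QQ ξ Pi a (vv y) := by
      have e1 : m * N + (mQ - m) * B =
          ∫ y in Sv F τ u, (m * Wf F τ u y + (mQ - m) * Q.indicator (Wf F τ u) y) := by
        rw [integral_add (iW.const_mul m) (iWQ.const_mul (mQ - m)), integral_const_mul,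
          integral_const_mul, setIntegral_indicator hQ.measurableSet]
      rw [e1]
      refine setIntegral_mono_on ((iW.const_mul m).add (iWQ.const_mul (mQ - m))) i1
        hSo.measurableSet fun y hy => ?_
      have hWp : 0 < Wf F τ u y := hy
      by_cases hyQ : y ∈ Q
      · have h2 : mQ ≤ q (vv y) := hmin hyQ
        rw [indicator_of_mem hyQ]
        have h3 : QQ ξ Pi a (vv y) = q (vv y) := rfl
        rw [h3]
        nlinarith
      · rw [indicator_of_notMem hyQ]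
        have h3 : QQ ξ Pi a (vv y) = q (vv y) := rfl
        rw [h3]
        have h4 := hmq (vv y)
        nlinarith
    have h2 : θ * N ≤ B := by
      have h3 := h.mom u
      rw [← hNdef] at h3
      have h4 := b1 u
      have h5 := hlow u
      have h6 := nn_pos u
      have h7 : θ * N * nn u ≤ c := by
        rw [← h3, hθ]
        have : c / (2 * lam * C) * (2 * lam * ξ u) * nn u = c * (ξ u * nn u) / C := by
          field_simp
        rw [this, div_le_iff₀ hC0]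
        exact mul_le_mul_of_nonneg_left h4 hc.le
      have h8 : θ * N * nn u ≤ B * nn u := by linarith
      exact le_of_mul_le_mul_right h8 h6
    have h3 : m * N + (mQ - m) * (θ * N) ≤ q u * N :=
      (add_le_add le_rfl (mul_le_mul_of_nonneg_left h2 (by linarith))).trans (h1.trans i2)
    have h4 : (m + (mQ - m) * θ) * N ≤ q u * N := by linarith
    exact le_of_mul_le_mul_right h4 (hN u)
  have h5 : m + (mQ - m) * θ ≤ m := le_ciInf key
  nlinarith

end

end Pool.Agent.Helper49.MI
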