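import Pool.Agent.Helper73.MI.Stmts

/-!
# Sections in the mirror picture: elementary facts (project MP_a2630c_MI)
-/

open MeasureTheory Set Metric Real Filter Topology
open scoped RealInnerProductSpace ENNReal
open Pool.Agent.Helper73.MI

set_option linter.unusedSectionVars false

universe w

namespace Pool.Agent.Helper49.MI

section

variable {V : Type w} [NormedAddCommGroup V] [InnerProductSpace ℝ V] [FiniteDimensional ℝ V]
  [MeasurableSpace V] [BorelSpace V] {D : Set V} {F : V → ℝ} {Y : V → V}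
  {ξ τ : V → ℝ} {P : V → V →L[ℝ] V} {lam : ℝ} {vv : V → V} {Pi : V → V →L[ℝ] V}

theorem W_cont (hF : Continuous F) (v : V) : Continuous (Wf F τ v) := by
  unfold Wf
  fun_prop

theorem Sv_open (hF : Continuous F) (v : V) : IsOpen (Sv F τ v) :=
  isOpen_lt continuous_const (W_cont hF v)

theorem Sv_sub (h : MD D F Y ξ τ P lam) (v : V) : Sv F τ v ⊆ D := by
  intro y hy
  by_contra hD
  have h0 := h.Fzero y hD
  have : 0 < Wf F τ v y := hy
  rw [Wf, h0] at this
  nlinarith [sq_nonneg (τ v - inner ℝ v y)]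

theorem Sv_bdd (h : MD D F Y ξ τ P lam) (v : V) : Bornology.IsBounded (Sv F τ v) :=
  h.Dbdd.subset (Sv_sub h v)

theorem F_nonneg (h : MD D F Y ξ τ P lam) (y : V) : 0 ≤ F y := by
  by_cases hy : y ∈ D
  · exact (h.Fpos y hy).le
  · exact (h.Fzero y hy).ge

theorem W_le (v y : V) : Wf F τ v y ≤ F y := by
  unfold Wf
  nlinarith [sq_nonneg (τ v - inner ℝ v y)]

theorem mem_Sv (h : MD D F Y ξ τ P lam) (v y : V) :
    y ∈ Sv F τ v ↔ y ∈ D ∧ -√(F y) < τ v - inner ℝ v y ∧ τ v - inner ℝ v y < √(F y) := by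
  rw [← Real.sq_lt]
  constructor
  · intro hy
    have h1 : 0 < Wf F τ v y := hy
    refine ⟨Sv_sub h v hy, ?_⟩
    unfold Wf at h1
    linarith
  · rintro ⟨_, h2⟩
    change 0 < Wf F τ v y
    unfold Wf
    linarith

theorem Sv_convex (h : MD D F Y ξ τ P lam) (v : V) : Convex ℝ (Sv F τ v) := by
  have e : Sv F τ v = {y ∈ D | 0 < √(F y) + (τ v - inner ℝ v y)} ∩
      {y ∈ D | 0 < √(F y) + (-τ v + inner ℝ v y)} := by
    ext y
    rw [mem_Sv h]
    simp only [mem_inter_iff, mem_ofPred_eq]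
    constructor
    · rintro ⟨h1, h2, h3⟩
      exact ⟨⟨h1, by linarith⟩, h1, by linarith⟩
    · rintro ⟨⟨h1, h2⟩, _, h3⟩
      exact ⟨h1, by linarith, by linarith⟩
  rw [e]
  have hl : ConcaveOn ℝ D (fun y : V => τ v - inner ℝ v y) := by
    refine ⟨h.Dconv, fun x _ y _ a b _ _ hab => ?_⟩
    simp only [smul_eq_mul, inner_add_right, inner_smul_right]
    have : b = 1 - a := by linarith
    subst this
    apply le_of_eq
    ring
  have hr : ConcaveOn ℝ D (fun y : V => -τ v + inner ℝ v y) := by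
    refine ⟨h.Dconv, fun x _ y _ a b _ _ hab => ?_⟩
    simp only [smul_eq_mul, inner_add_right, inner_smul_right]
    have : b = 1 - a := by linarith
    subst this
    apply le_of_eq
    ring
  exact ((h.Fconc.add hl).convex_gt 0).inter ((h.Fconc.add hr).convex_gt 0)

theorem Sv_frontier (h : MD D F Y ξ τ P lam) (v : V) : volume (frontier (Sv F τ v)) = 0 :=
  (Sv_convex h v).addHaar_frontier volume

/-- Bounded functions continuous on a bounded open set are integrable there. -/
theorem intOn {S : Set V} (hS : IsOpen S) (hb : Bornology.IsBounded S) {f : V → ℝ}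
    (hf : ContinuousOn f S) {C : ℝ} (hC : ∀ y ∈ S, |f y| ≤ C) : IntegrableOn f S := by
  have hfin : volume S ≠ ∞ := hb.measure_lt_top.ne
  have : IsFiniteMeasure (volume.restrict S) := isFiniteMeasure_restrict.2 hfin
  refine Integrable.of_bound (hf.aestronglyMeasurable hS.measurableSet) C ?_
  exact (ae_restrict_iff' hS.measurableSet).2 (Eventually.of_forall fun y hy => by
    simpa [Real.norm_eq_abs] using hC y hy)

theorem xi_pos_N (h : MD D F Y ξ τ P lam) (v : V) :
    0 < ∫ y in Sv F τ v, Wf F τ v y := by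
  rw [← h.mom v]
  have := h.lpos
  have := h.xpos v
  positivity

theorem W_int (h : MD D F Y ξ τ P lam) (v : V) : IntegrableOn (Wf F τ v) (Sv F τ v) :=
  ((W_cont h.Fcont v).continuousOn.integrableOn_compact (Sv_bdd h v).isCompact_closure).mono_set
    subset_closure

theorem vv_mem (hI : INV D Y P vv Pi) {y : V} (hy : y ∈ D) : Y (vv y) = y := hI.right y hy

theorem F_eq (h : MD D F Y ξ τ P lam) (hI : INV D Y P vv Pi) {y : V} (hy : y ∈ D) :
    F y = ξ (vv y) ^ 2 := by
  rw [← h.FY, hI.right y hy]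

theorem vv_contAt (hI : INV D Y P vv Pi) {y : V} (hy : y ∈ D) : ContinuousAt vv y := by
  have := (hI.der (vv y)).continuousAt
  rwa [hI.right y hy] at this

theorem vv_cont (hI : INV D Y P vv Pi) : ContinuousOn vv D :=
  fun _ hy => (vv_contAt hI hy).continuousWithinAt

theorem xi_cont (h : MD D F Y ξ τ P lam) : Continuous ξ :=
  continuous_iff_continuousAt.2 fun v => (h.xder v).continuousAt

theorem Y_cont (h : MD D F Y ξ τ P lam) : Continuous Y :=
  continuous_iff_continuousAt.2 fun v => (h.Yder v).continuousAt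

theorem QQ_cont (h : MD D F Y ξ τ P lam) (hI : INV D Y P vv Pi) (a : V) :
    Continuous (QQ ξ Pi a) := by
  have h1 := xi_cont h
  have h2 : Continuous fun v => Pi v a := hI.Pic.clm_apply continuous_const
  unfold QQ
  fun_prop

theorem QQ_vv_cont (h : MD D F Y ξ τ P lam) (hI : INV D Y P vv Pi) (a : V) :
    ContinuousOn (fun y => QQ ξ Pi a (vv y)) D :=
  (QQ_cont h hI a).comp_continuousOn (vv_cont hI)

theorem nn_pos (v : V) : 0 < nn v := by
  unfold nn
  positivity

theorem norm_le_nn (v : V) : ‖v‖ ≤ nn v := by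
  unfold nn
  apply Real.le_sqrt_of_sq_le
  linarith

/-- `⟪Pi v a, a⟫ ≥ 0`. -/
theorem Pi_nonneg (h : MD D F Y ξ τ P lam) (hI : INV D Y P vv Pi) (v a : V) :
    0 ≤ (inner ℝ (Pi v a) a : ℝ) := by
  obtain ⟨c, hc, hP⟩ := h.Plow
  have h1 := hP v (Pi v a)
  rw [hI.PPi] at h1
  have h2 : 0 < nn v ^ 3 := pow_pos (nn_pos v) 3
  have h3 : 0 ≤ c * ‖Pi v a‖ ^ 2 := by positivity
  nlinarith [h3.trans h1]

end

end Pool.Agent.Helper49.MI
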