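import Pool.Agent.Helper49.MI.Basic

/-!
# Row CSI of project MP_a2630c_MI: the main inequality
-/

open MeasureTheory Set Metric Real Filter Topology
open scoped RealInnerProductSpace ENNReal
open Pool.Agent.Helper73.MI

set_option linter.unusedSectionVars false

universe w

namespace Pool.Agent.Helper49.MI

section

variable {V : Type w} [NormedAddCommGroup V] [InnerProductSpace ℝ V] [FiniteDimensional ℝ V]
  [MeasurableSpace V] [BorelSpace V] {D : Set V} {F : V → ℝ} {Y : V → V}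
  {ξ τ : V → ℝ} {P : V → V →L[ℝ] V} {lam : ℝ} {vv : V → V} {Pi : V → V →L[ℝ] V}

/-- derivative of the weight -/
noncomputable def W' (ξ τ : V → ℝ) (vv : V → V) (v y : V) : V →L[ℝ] ℝ :=
  (-2 * ξ (vv y)) • innerSL ℝ (vv y) + (2 * (τ v - inner ℝ v y)) • innerSL ℝ v

/-- derivative of the derivative of the weight in the direction `a` -/
noncomputable def G' (ξ : V → ℝ) (vv : V → V) (Pi : V → V →L[ℝ] V) (v a y : V) : V →L[ℝ] ℝ :=
  ((2 * inner ℝ (vv y) a) • innerSL ℝ (vv y) - (2 * ξ (vv y)) • (innerSL ℝ a).comp (Pi (vv y)))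
    - (2 * inner ℝ v a) • innerSL ℝ v

theorem lin_der (v y : V) (t : ℝ) :
    HasFDerivAt (fun z : V => t - inner ℝ v z) (-innerSL ℝ v) y := by
  exact ((innerSL ℝ v).hasFDerivAt (x := y)).const_sub t

theorem W_der (hfd : S_fd.{w}) (h : MD D F Y ξ τ P lam) (hI : INV D Y P vv Pi) (v : V) {y : V}
    (hy : y ∈ D) : HasFDerivAt (Wf F τ v) (W' ξ τ vv v y) y := by
  have h1 : HasFDerivAt F ((-2 * ξ (vv y)) • innerSL ℝ (vv y)) y := by
    have := (hfd h hI).1 (vv y)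
    rwa [hI.right y hy] at this
  have h2 := (lin_der v y (τ v)).pow 2
  have h3 := h1.sub h2
  refine h3.congr_fderiv ?_
  ext z
  simp [W']

theorem W'_apply (v y a : V) : W' ξ τ vv v y a =
    -2 * ξ (vv y) * inner ℝ (vv y) a + 2 * inner ℝ v a * (τ v - inner ℝ v y) := by
  simp [W']
  ring

theorem G_der (hfd : S_fd.{w}) (h : MD D F Y ξ τ P lam) (hI : INV D Y P vv Pi) (v a : V) {y : V}
    (hy : y ∈ D) : HasFDerivAt (fun z => W' ξ τ vv v z a) (G' ξ vv Pi v a y) y := by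
  have h1 := (hfd h hI).2 a (vv y)
  rw [hI.right y hy] at h1
  have h2 := (lin_der v y (τ v)).const_mul (2 * inner ℝ v a)
  have h3 := h1.add h2
  have e : (fun z => W' ξ τ vv v z a) = (fun y => -2 * ξ (vv y) * inner ℝ (vv y) a) +
      fun y => 2 * inner ℝ v a * (τ v - inner ℝ v y) := by
    funext z
    rw [W'_apply]
    rfl
  rw [e]
  refine h3.congr_fderiv ?_
  ext z
  simp [G']
  ring

theorem G'_apply (v a y : V) : G' ξ vv Pi v a y a = QQ ξ Pi a (vv y) - 2 * inner ℝ v a ^ 2 := by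
  simp [G', QQ, real_inner_comm a (Pi (vv y) a)]
  ring

/-- Integration by parts against a function `φ` which is bounded on the section. -/
theorem ibp (hdiv : S_div.{w}) (hfd : S_fd.{w}) (h : MD D F Y ξ τ P lam) (hI : INV D Y P vv Pi)
    (v : V) {φ : V → ℝ} {φ' : V → V →L[ℝ] ℝ} (hφ : ∀ y ∈ Sv F τ v, HasFDerivAt φ (φ' y) y)
    {C1 C2 C3 : ℝ} (h1 : ∀ y ∈ Sv F τ v, |φ y| ≤ C1)
    (h2 : ∀ y ∈ Sv F τ v, Wf F τ v y * ‖φ' y‖ ≤ C2) (h3 : ∀ y ∈ Sv F τ v, ‖W' ξ τ vv v y‖ ≤ C3)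
    (a : V) :
    IntegrableOn (fun y => φ y * W' ξ τ vv v y a + Wf F τ v y * φ' y a) (Sv F τ v) ∧
      ∫ y in Sv F τ v, (φ y * W' ξ τ vv v y a + Wf F τ v y * φ' y a) = 0 := by
  classical
  set S := Sv F τ v with hS
  have hSo : IsOpen S := Sv_open h.Fcont v
  have hWc := W_cont (τ := τ) h.Fcont v
  set g : V → ℝ := S.indicator fun y => Wf F τ v y * φ y with hg
  have hgS : ∀ y ∈ S, HasFDerivAt g (Wf F τ v y • φ' y + φ y • W' ξ τ vv v y) y := by
    intro y hy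
    have hd := (W_der hfd h hI v (Sv_sub h v hy)).mul (hφ y hy)
    refine hd.congr_of_eventuallyEq ?_
    filter_upwards [hSo.mem_nhds hy] with z hz
    simp [hg, hz]
  have hg0 : ∀ y, y ∉ S → g y = 0 := fun y hy => by simp [hg, hy]
  have hgc : Continuous g := by
    rw [continuous_iff_continuousAt]
    intro y
    by_cases hy : y ∈ S
    · exact (hgS y hy).continuousAt
    · have hW0 : max (Wf F τ v y) 0 = 0 := max_eq_right (not_lt.1 hy)
      have hc : ContinuousAt (fun z => max (Wf F τ v z) 0 * |C1|) y := by fun_prop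
      have hlim : Tendsto (fun z => max (Wf F τ v z) 0 * |C1|) (𝓝 y) (𝓝 0) := by
        have := hc.tendsto
        rwa [hW0, zero_mul] at this
      have hz : Tendsto g (𝓝 y) (𝓝 0) := by
        refine squeeze_zero_norm (fun z => ?_) hlim
        by_cases hz : z ∈ S
        · have hWz : 0 < Wf F τ v z := hz
          have e1 : g z = Wf F τ v z * φ z := by simp [hg, hz]
          rw [e1, Real.norm_eq_abs, abs_mul, abs_of_pos hWz, max_eq_left hWz.le]
          exact mul_le_mul_of_nonneg_left ((h1 z hz).trans (le_abs_self C1)) hWz.le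
        · rw [hg0 z hz, norm_zero]
          positivity
      have e2 := hg0 y hy
      change Tendsto g (𝓝 y) (𝓝 (g y))
      rwa [e2]
  have hb : ∀ y ∈ S, ‖Wf F τ v y • φ' y + φ y • W' ξ τ vv v y‖ ≤ C2 + C1 * C3 := by
    intro y hy
    have hWz : 0 < Wf F τ v y := hy
    refine (norm_add_le _ _).trans ?_
    rw [norm_smul, norm_smul, Real.norm_eq_abs, Real.norm_eq_abs, abs_of_pos hWz]
    have hC1 : 0 ≤ C1 := (abs_nonneg _).trans (h1 y hy)
    exact add_le_add (h2 y hy) (mul_le_mul (h1 y hy) (h3 y hy) (norm_nonneg _) hC1)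
  obtain ⟨r1, r2⟩ := hdiv hSo (Sv_bdd h v) (Sv_frontier h v) hgc hg0 hgS hb a
  have e : (fun y => (Wf F τ v y • φ' y + φ y • W' ξ τ vv v y) a) =
      fun y => φ y * W' ξ τ vv v y a + Wf F τ v y * φ' y a := by
    funext y
    simp
    ring
  rw [e] at r1 r2
  exact ⟨r1, r2⟩

/-- bounds on the section -/
theorem bounds (hbd : S_bd.{w}) (h : MD D F Y ξ τ P lam) (hI : INV D Y P vv Pi) (v a : V) :
    (∃ C, ∀ y ∈ Sv F τ v, ‖W' ξ τ vv v y‖ ≤ C) ∧
      (∃ C, ∀ y ∈ Sv F τ v, Wf F τ v y * ‖G' ξ vv Pi v a y‖ ≤ C) ∧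
      ∃ C, ∀ y ∈ Sv F τ v, |W' ξ τ vv v y a| ≤ C := by
  obtain ⟨C, hC0, b1, b2, b3⟩ := hbd h hI
  have key1 : ∀ y ∈ Sv F τ v, ‖W' ξ τ vv v y‖ ≤ 2 * C + 2 * √C * ‖v‖ := by
    intro y hy
    have hyD := Sv_sub h v hy
    have hx := h.xpos (vv y)
    have e1 : ‖(-2 * ξ (vv y)) • innerSL ℝ (vv y)‖ ≤ 2 * C := by
      rw [norm_smul, innerSL_apply_norm, Real.norm_eq_abs, abs_mul, abs_of_pos hx]
      have := b1 (vv y)
      have h2 := mul_le_mul_of_nonneg_left (norm_le_nn (vv y)) hx.le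
      have h3 : |(-2 : ℝ)| = 2 := by norm_num
      rw [h3]
      nlinarith
    have e2 : ‖(2 * (τ v - inner ℝ v y)) • innerSL ℝ v‖ ≤ 2 * √C * ‖v‖ := by
      rw [norm_smul, innerSL_apply_norm, Real.norm_eq_abs, abs_mul]
      have h2 : |τ v - inner ℝ v y| ≤ √C := by
        apply Real.abs_le_sqrt
        have hW : 0 < Wf F τ v y := hy
        unfold Wf at hW
        linarith [b3 y]
      have h3 : |(2 : ℝ)| = 2 := by norm_num
      rw [h3]
      exact mul_le_mul_of_nonneg_right (by linarith) (norm_nonneg v)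
    exact (norm_add_le _ _).trans (add_le_add e1 e2)
  refine ⟨⟨_, key1⟩, ⟨2 * C ^ 2 * ‖a‖ + 2 * C * ‖a‖ + 2 * C * ‖v‖ ^ 2 * ‖a‖, ?_⟩,
    ⟨(2 * C + 2 * √C * ‖v‖) * ‖a‖, ?_⟩⟩
  · intro y hy
    have hyD := Sv_sub h v hy
    have hx := h.xpos (vv y)
    have hW : 0 < Wf F τ v y := hy
    have hWF : Wf F τ v y ≤ ξ (vv y) ^ 2 := by
      rw [← F_eq h hI hyD]
      exact W_le v y
    have hWC : Wf F τ v y ≤ C := (W_le v y).trans (b3 y)
    have hxv : ξ (vv y) * ‖vv y‖ ≤ C :=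
      (mul_le_mul_of_nonneg_left (norm_le_nn (vv y)) hx.le).trans (b1 _)
    have hxv0 : 0 ≤ ξ (vv y) * ‖vv y‖ := by positivity
    have e1 : Wf F τ v y * ‖(2 * inner ℝ (vv y) a) • innerSL ℝ (vv y)‖ ≤ 2 * C ^ 2 * ‖a‖ := by
      rw [norm_smul, innerSL_apply_norm, Real.norm_eq_abs, abs_mul]
      have h2 : |(2 : ℝ)| = 2 := by norm_num
      rw [h2]
      have h3 : |(inner ℝ (vv y) a : ℝ)| ≤ ‖vv y‖ * ‖a‖ := abs_real_inner_le_norm _ _
      have h4 : 2 * |(inner ℝ (vv y) a : ℝ)| * ‖vv y‖ ≤ 2 * (‖vv y‖ * ‖a‖) * ‖vv y‖ := by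
        gcongr
      have h5 : 0 ≤ 2 * (‖vv y‖ * ‖a‖) * ‖vv y‖ := by positivity
      calc Wf F τ v y * (2 * |(inner ℝ (vv y) a : ℝ)| * ‖vv y‖)
          ≤ ξ (vv y) ^ 2 * (2 * (‖vv y‖ * ‖a‖) * ‖vv y‖) :=
            mul_le_mul hWF h4 (by positivity) (by positivity)
        _ = 2 * (ξ (vv y) * ‖vv y‖) ^ 2 * ‖a‖ := by ring
        _ ≤ 2 * C ^ 2 * ‖a‖ := by gcongr
    have e2 : Wf F τ v y * ‖(2 * ξ (vv y)) • (innerSL ℝ a).comp (Pi (vv y))‖ ≤ 2 * C * ‖a‖ := by
      rw [norm_smul, Real.norm_eq_abs, abs_of_pos (by positivity : (0 : ℝ) < 2 * ξ (vv y))]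
      have h3 : ‖(innerSL ℝ a).comp (Pi (vv y))‖ ≤ ‖a‖ * ‖Pi (vv y)‖ := by
        refine (ContinuousLinearMap.opNorm_comp_le _ _).trans ?_
        rw [innerSL_apply_norm]
      have h4 := b2 (vv y)
      calc Wf F τ v y * (2 * ξ (vv y) * ‖(innerSL ℝ a).comp (Pi (vv y))‖)
          ≤ ξ (vv y) ^ 2 * (2 * ξ (vv y) * (‖a‖ * ‖Pi (vv y)‖)) :=
            mul_le_mul hWF (by gcongr) (by positivity) (by positivity)
        _ = 2 * (ξ (vv y) ^ 3 * ‖Pi (vv y)‖) * ‖a‖ := by ring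
        _ ≤ 2 * C * ‖a‖ := by gcongr
    have e3 : Wf F τ v y * ‖(2 * inner ℝ v a) • innerSL ℝ v‖ ≤ 2 * C * ‖v‖ ^ 2 * ‖a‖ := by
      rw [norm_smul, innerSL_apply_norm, Real.norm_eq_abs, abs_mul]
      have h2 : |(2 : ℝ)| = 2 := by norm_num
      rw [h2]
      have h3 : |(inner ℝ v a : ℝ)| ≤ ‖v‖ * ‖a‖ := abs_real_inner_le_norm _ _
      calc Wf F τ v y * (2 * |(inner ℝ v a : ℝ)| * ‖v‖)
          ≤ C * (2 * (‖v‖ * ‖a‖) * ‖v‖) := by gcongr
        _ = 2 * C * ‖v‖ ^ 2 * ‖a‖ := by ring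
    have e4 : ‖G' ξ vv Pi v a y‖ ≤ ‖(2 * inner ℝ (vv y) a) • innerSL ℝ (vv y)‖ +
        ‖(2 * ξ (vv y)) • (innerSL ℝ a).comp (Pi (vv y))‖ + ‖(2 * inner ℝ v a) • innerSL ℝ v‖ := by
      unfold G'
      exact (norm_sub_le _ _).trans (add_le_add (norm_sub_le _ _) le_rfl)
    calc Wf F τ v y * ‖G' ξ vv Pi v a y‖ ≤ Wf F τ v y *
          (‖(2 * inner ℝ (vv y) a) • innerSL ℝ (vv y)‖ +
        ‖(2 * ξ (vv y)) • (innerSL ℝ a).comp (Pi (vv y))‖ +
          ‖(2 * inner ℝ v a) • innerSL ℝ v‖) := mul_le_mul_of_nonneg_left e4 hW.le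
      _ ≤ _ := by
          rw [mul_add, mul_add]
          exact add_le_add (add_le_add e1 e2) e3
  · intro y hy
    rw [← Real.norm_eq_abs]
    exact ((W' ξ τ vv v y).le_opNorm a).trans
      (mul_le_mul_of_nonneg_right (key1 y hy) (norm_nonneg a))

theorem int4 {μ : Measure V} {f g k l : V → ℝ} (p q r : ℝ) (hf : Integrable f μ)
    (hg : Integrable g μ) (hk : Integrable k μ) (hl : Integrable l μ) :
    ∫ y, (f y + p * g y + q * k y + r * l y) ∂μ =
      (∫ y, f y ∂μ) + p * (∫ y, g y ∂μ) + q * (∫ y, k y ∂μ) + r * ∫ y, l y ∂μ := by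
  have h1 : Integrable (fun y => f y + p * g y) μ := hf.add (hg.const_mul p)
  have h2 : Integrable (fun y => f y + p * g y + q * k y) μ := h1.add (hk.const_mul q)
  rw [integral_add h2 (hl.const_mul r), integral_add h1 (hk.const_mul q),
    integral_add hf (hg.const_mul p), integral_const_mul, integral_const_mul, integral_const_mul]

/-- **(CSI)** -/
theorem csi (hdiv : S_div.{w}) (hfd : S_fd.{w}) (hbd : S_bd.{w}) : S_csi.{w} := by
  intro V _ _ _ _ _ D F Y ξ τ P lam vv Pi h hI a v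
  obtain ⟨⟨C3, hC3⟩, ⟨C2, hC2⟩, ⟨C1, hC1⟩⟩ := bounds hbd h hI v a
  set S := Sv F τ v with hS
  have hSo : IsOpen S := Sv_open h.Fcont v
  have hSb := Sv_bdd h v
  have hWi := W_int h v
  set κ := Pi v a with hκ
  set N := ∫ y in S, Wf F τ v y with hN
  -- G is continuous and bounded on S
  have hGc : ContinuousOn (fun y => W' ξ τ vv v y a) S := fun y hy =>
    (G_der hfd h hI v a (Sv_sub h v hy)).continuousAt.continuousWithinAt
  obtain ⟨c0, hc0⟩ := h.inert v κ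
  rw [hκ, hI.PPi, ← hκ] at hc0
  obtain ⟨R, hR⟩ := hSb.exists_norm_le
  obtain ⟨C, hC0, _, _, hFC⟩ := hbd h hI
  have hWC : ∀ y ∈ S, Wf F τ v y ≤ C := fun y _ => (W_le v y).trans (hFC y)
  have hWp : ∀ y ∈ S, 0 < Wf F τ v y := fun y hy => hy
  have hκS : ∀ y ∈ S, |(inner ℝ κ y : ℝ)| ≤ ‖κ‖ * R := fun y hy =>
    (abs_real_inner_le_norm _ _).trans (mul_le_mul_of_nonneg_left (hR y hy) (norm_nonneg _))
  -- three integrations by parts
  have A1 := ibp hdiv hfd h hI v (φ := fun _ => 1) (φ' := fun _ => 0)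
    (fun y _ => hasFDerivAt_const 1 y) (C1 := 1) (C2 := 0) (C3 := C3)
    (fun y _ => by simp) (fun y _ => by simp) hC3 a
  have A2 := ibp hdiv hfd h hI v (φ := fun y => inner ℝ κ y) (φ' := fun _ => innerSL ℝ κ)
    (fun y _ => (innerSL ℝ κ).hasFDerivAt) (C1 := ‖κ‖ * R) (C2 := C * ‖κ‖) (C3 := C3)
    hκS (fun y hy => by
      rw [innerSL_apply_norm]
      exact mul_le_mul_of_nonneg_right (hWC y hy) (norm_nonneg _)) hC3 a
  have A3 := ibp hdiv hfd h hI v (φ := fun y => W' ξ τ vv v y a) (φ' := G' ξ vv Pi v a)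
    (fun y hy => G_der hfd h hI v a (Sv_sub h v hy)) hC1 hC2 hC3 a
  -- integrability
  have iG : IntegrableOn (fun y => W' ξ τ vv v y a) S := intOn hSo hSb hGc hC1
  have iG2 : IntegrableOn (fun y => W' ξ τ vv v y a ^ 2) S := by
    refine intOn hSo hSb (hGc.pow 2) (C := C1 ^ 2) fun y hy => ?_
    rw [abs_pow]
    exact pow_le_pow_left₀ (abs_nonneg _) (hC1 y hy) 2
  have iκG : IntegrableOn (fun y => inner ℝ κ y * W' ξ τ vv v y a) S := by
    refine intOn hSo hSb ?_ (C := ‖κ‖ * R * C1) fun y hy => ?_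
    · exact (by fun_prop : Continuous fun y : V => (inner ℝ κ y : ℝ)).continuousOn.mul hGc
    · rw [abs_mul]
      exact mul_le_mul (hκS y hy) (hC1 y hy) (abs_nonneg _)
        ((abs_nonneg _).trans (hκS y hy))
  have iκ2 : IntegrableOn (fun y => (inner ℝ κ y - c0) ^ 2) S :=
    ((by fun_prop : Continuous fun y : V => ((inner ℝ κ y : ℝ) - c0) ^ 2).continuousOn.integrableOn_compact
      hSb.isCompact_closure).mono_set subset_closure
  -- the weighted second derivative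
  have iQ : IntegrableOn (fun y => Wf F τ v y * QQ ξ Pi a (vv y)) S := by
    have h1 : IntegrableOn (fun y => (W' ξ τ vv v y a * W' ξ τ vv v y a +
        Wf F τ v y * G' ξ vv Pi v a y a - W' ξ τ vv v y a ^ 2) +
        Wf F τ v y * (2 * inner ℝ v a ^ 2)) S :=
      (A3.1.sub iG2).add (hWi.mul_const (2 * inner ℝ v a ^ 2))
    refine h1.congr_fun (fun y _ => ?_) hSo.measurableSet
    simp only [G'_apply]
    ring
  have I1 : ∫ y in S, W' ξ τ vv v y a = 0 := by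
    have := A1.2
    simpa using this
  have I2 : ∫ y in S, inner ℝ κ y * W' ξ τ vv v y a = -(inner ℝ κ a * N) := by
    have h1 := A2.2
    have h2 : ∫ y in S, (inner ℝ κ y * W' ξ τ vv v y a + Wf F τ v y * innerSL ℝ κ a) =
        (∫ y in S, inner ℝ κ y * W' ξ τ vv v y a) + N * inner ℝ κ a := by
      rw [integral_add iκG (hWi.mul_const _), integral_mul_const]
      rfl
    rw [h2] at h1
    linarith
  have I3 : ∫ y in S, W' ξ τ vv v y a ^ 2 =
      2 * inner ℝ v a ^ 2 * N - ∫ y in S, Wf F τ v y * QQ ξ Pi a (vv y) := by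
    have h1 := A3.2
    have h2 : ∫ y in S, (W' ξ τ vv v y a * W' ξ τ vv v y a + Wf F τ v y * G' ξ vv Pi v a y a) =
        (∫ y in S, W' ξ τ vv v y a ^ 2) + ((∫ y in S, Wf F τ v y * QQ ξ Pi a (vv y)) -
          N * (2 * inner ℝ v a ^ 2)) := by
      have h3 := int4 (1 : ℝ) (-(2 * inner ℝ v a ^ 2)) 0 iG2 iQ hWi hWi
      rw [← hN] at h3
      have h4 : ∫ y in S, (W' ξ τ vv v y a * W' ξ τ vv v y a + Wf F τ v y * G' ξ vv Pi v a y a) =
          ∫ y in S, (W' ξ τ vv v y a ^ 2 + 1 * (Wf F τ v y * QQ ξ Pi a (vv y)) +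
            (-(2 * inner ℝ v a ^ 2)) * Wf F τ v y + 0 * Wf F τ v y) := by
        refine setIntegral_congr_fun hSo.measurableSet fun y _ => ?_
        simp only [G'_apply]
        ring
      rw [h4, h3]
      ring
    rw [h2] at h1
    linarith
  refine ⟨iQ, ?_⟩
  have hmom := h.mom v
  rw [← hS, ← hN] at hmom
  have hq : QQ ξ Pi a v = 2 * inner ℝ v a ^ 2 - 2 * ξ v * inner ℝ κ a := rfl
  rw [hq]
  -- Cauchy-Schwarz
  have hκa := Pi_nonneg h hI v a
  rw [← hκ] at hκa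
  have key : 2 * ξ v * inner ℝ κ a * N ≤ ∫ y in S, W' ξ τ vv v y a ^ 2 := by
    rcases hκa.eq_or_lt with h0 | h0
    · rw [← h0]
      simp only [mul_zero, zero_mul]
      exact integral_nonneg fun y => sq_nonneg _
    · -- the square of `G + (N / lam) (⟪κ, y⟫ - c0)`
      set s : ℝ := N / lam with hs
      have hl := h.lpos
      have e1 : 0 ≤ ∫ y in S, (W' ξ τ vv v y a + s * (inner ℝ κ y - c0)) ^ 2 :=
        integral_nonneg fun y => sq_nonneg _
      have e2 : ∫ y in S, (W' ξ τ vv v y a + s * (inner ℝ κ y - c0)) ^ 2 =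
          (∫ y in S, W' ξ τ vv v y a ^ 2) + (2 * s * (∫ y in S, inner ℝ κ y * W' ξ τ vv v y a) -
            2 * s * c0 * (∫ y in S, W' ξ τ vv v y a)) +
            s ^ 2 * ∫ y in S, (inner ℝ κ y - c0) ^ 2 := by
        have h3 := int4 (2 * s) (-(2 * s * c0)) (s ^ 2) iG2 iκG iG iκ2
        have h4 : ∫ y in S, (W' ξ τ vv v y a + s * (inner ℝ κ y - c0)) ^ 2 =
            ∫ y in S, (W' ξ τ vv v y a ^ 2 + 2 * s * (inner ℝ κ y * W' ξ τ vv v y a) +
              (-(2 * s * c0)) * W' ξ τ vv v y a + s ^ 2 * (inner ℝ κ y - c0) ^ 2) := by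
          refine setIntegral_congr_fun hSo.measurableSet fun y _ => ?_
          ring
        rw [h4, h3]
        ring
      rw [e2, I1, I2, ← hc0] at e1
      have e3 : lam * s = N := by
        rw [hs]
        field_simp
      have e4 : N * s = 2 * ξ v * N := by
        rw [hs, ← hmom]
        field_simp
      have e5 : s ^ 2 * (lam * inner ℝ κ a) = N * s * inner ℝ κ a := by
        rw [← e3]
        ring
      rw [e5] at e1
      have e6 : 2 * s * -(inner ℝ κ a * N) = -2 * (N * s) * inner ℝ κ a := by ring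
      rw [e6, e4] at e1
      nlinarith
  rw [I3] at key
  linarith

end

end Pool.Agent.Helper49.MI
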