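import Pool.Agent.Helper49.MI.Basic

/-!
# Row PRP of project MP_a2630c_MI: the minimum propagates
-/

open MeasureTheory Set Metric Real Filter Topology
open scoped RealInnerProductSpace ENNReal
open Pool.Agent.Helper73.MI

set_option linter.unusedSectionVars false

universe w

namespace Pool.Agent.Helper49.MI

section

variable {V : Type w} [NormedAddCommGroup V] [InnerProductSpace ℝ V] [FiniteDimensional ℝ V]
  [MeasurableSpace V] [BorelSpace V] {D : Set V} {F : V → ℝ} {Y : V → V}
  {ξ τ : V → ℝ} {P : V → V →L[ℝ] V} {lam : ℝ} {vv : V → V} {Pi : V → V →L[ℝ] V}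

/-- where the minimum is attained, it is attained on the whole section -/
theorem spread (hcsi : S_csi.{w}) (h : MD D F Y ξ τ P lam) (hI : INV D Y P vv Pi) {a v : V}
    (hmin : ∀ u, QQ ξ Pi a v ≤ QQ ξ Pi a u) {y : V} (hy : y ∈ Sv F τ v) :
    QQ ξ Pi a (vv y) = QQ ξ Pi a v := by
  obtain ⟨i1, i2⟩ := hcsi h hI a v
  have hSo := Sv_open (τ := τ) h.Fcont v
  set m := QQ ξ Pi a v with hm
  set f : V → ℝ := fun y => Wf F τ v y * (QQ ξ Pi a (vv y) - m) with hf
  have hf0 : ∀ z ∈ Sv F τ v, 0 ≤ f z := fun z hz =>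
    mul_nonneg (le_of_lt hz) (sub_nonneg.2 (hmin _))
  have hfi : IntegrableOn f (Sv F τ v) := by
    refine (i1.sub ((W_int h v).mul_const m)).congr_fun (fun z _ => ?_) hSo.measurableSet
    simp only [hf]
    change Wf F τ v z * QQ ξ Pi a (vv z) - Wf F τ v z * m = _
    ring
  have hfint : ∫ z in Sv F τ v, f z ≤ 0 := by
    have e : ∫ z in Sv F τ v, f z = (∫ z in Sv F τ v, Wf F τ v z * QQ ξ Pi a (vv z)) -
        m * ∫ z in Sv F τ v, Wf F τ v z := by
      rw [← integral_const_mul, ← integral_sub i1 ((W_int h v).const_mul m)]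
      refine setIntegral_congr_fun hSo.measurableSet fun z _ => ?_
      simp only [hf]
      ring
    rw [e]
    linarith
  have hfz : ∫ z in Sv F τ v, f z = 0 :=
    le_antisymm hfint (setIntegral_nonneg hSo.measurableSet hf0)
  have hfc : ContinuousOn f (Sv F τ v) :=
    (W_cont h.Fcont v).continuousOn.mul
      (((QQ_vv_cont h hI a).mono (Sv_sub h v)).sub continuousOn_const)
  have hae : f =ᵐ[volume.restrict (Sv F τ v)] 0 :=
    (setIntegral_eq_zero_iff_of_nonneg_ae ((ae_restrict_iff' hSo.measurableSet).2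
      (Eventually.of_forall hf0)) hfi).1 hfz
  have heq : EqOn f 0 (Sv F τ v) :=
    Measure.eqOn_open_of_ae_eq hae hSo hfc continuousOn_const
  have h1 := heq hy
  have hWp : 0 < Wf F τ v y := hy
  have h2 : Wf F τ v y * (QQ ξ Pi a (vv y) - m) = 0 := h1
  have h3 := (mul_eq_zero.1 h2).resolve_left hWp.ne'
  linarith

/-- `Y u` lies in the section of `v` -/
theorem mem_Sv_Y (h : MD D F Y ξ τ P lam) (v u : V) (h1 : 0 < ξ u + inner ℝ v (Y u) - τ v)
    (h2 : 0 < ξ u - inner ℝ v (Y u) + τ v) : Y u ∈ Sv F τ v := by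
  change 0 < Wf F τ v (Y u)
  unfold Wf
  rw [h.FY]
  nlinarith

theorem exists_between' {A B : ℝ → ℝ} (hA : Continuous A) (hB : Continuous B) {s : Set ℝ}
    (hs : IsPreconnected s) (hAB : ∀ r ∈ s, 0 < A r + B r) (h1 : ∃ r ∈ s, 0 < A r)
    (h2 : ∃ r ∈ s, 0 < B r) : ∃ r ∈ s, 0 < A r ∧ 0 < B r := by
  have hu : IsOpen {r | 0 < A r} := isOpen_lt continuous_const hA
  have hv : IsOpen {r | 0 < B r} := isOpen_lt continuous_const hB
  obtain ⟨r, hr, hr'⟩ := hs _ _ hu hv (fun r hr => by
    by_contra hn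
    simp only [mem_union, mem_ofPred_eq, not_or, not_lt] at hn
    linarith [hAB r hr]) h1 h2
  exact ⟨r, hr, hr'⟩

/-- **(PRP)** -/
theorem prp (hcsi : S_csi.{w}) (hatt : S_att.{w}) : S_prp.{w} := by
  intro V _ _ _ _ _ D F Y ξ τ P lam vv Pi h hI a v
  obtain ⟨v1, hv1⟩ := hatt h hI a
  set q := QQ ξ Pi a with hq
  set m := q v1 with hm
  have hqc : Continuous q := QQ_cont h hI a
  have hYc := Y_cont h
  have hξc := xi_cont h
  have hτc := h.tcont
  set Z : Set V := {u | q u = m} with hZ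
  have hZc : IsClosed Z := isClosed_eq hqc continuous_const
  have hsp : ∀ u ∈ Z, ∀ u', 0 < ξ u' + inner ℝ u (Y u') - τ u →
      0 < ξ u' - inner ℝ u (Y u') + τ u → u' ∈ Z := by
    intro u hu u' h1 h2
    have h3 := spread hcsi h hI (a := a) (v := u) (fun w => by
      have := hv1 w
      have h5 : q u = m := hu
      change q u ≤ q w
      rw [h5]
      exact this) (mem_Sv_Y h u u' h1 h2)
    rw [hI.left] at h3
    have h5 : q u = m := hu
    exact h3.trans h5
  -- step 1 : 0 ∈ Z
  have h0 : (0 : V) ∈ Z := by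
    obtain ⟨u, huZ, humin⟩ := hZc.exists_infDist_eq_dist ⟨v1, rfl⟩ (0 : V)
    by_cases hu0 : u = 0
    · rwa [hu0] at huZ
    exfalso
    have hn : 0 < ‖u‖ := norm_pos_iff.2 hu0
    set A : ℝ → ℝ := fun r => ξ (r • u) + inner ℝ u (Y (r • u)) - τ u with hA
    set B : ℝ → ℝ := fun r => ξ (r • u) - inner ℝ u (Y (r • u)) + τ u with hB
    have hAc : Continuous A := by
      have : Continuous fun r : ℝ => r • u := by fun_prop
      exact (((hξc.comp this).add (continuous_const.inner (hYc.comp this))).sub continuous_const)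
    have hBc : Continuous B := by
      have : Continuous fun r : ℝ => r • u := by fun_prop
      exact (((hξc.comp this).sub (continuous_const.inner (hYc.comp this))).add continuous_const)
    have hA1 : 0 < A 1 := by
      simp only [hA, one_smul]
      linarith [h.tup u]
    have hB1 : 0 < B (-1) := by
      simp only [hB, neg_smul, one_smul]
      have := h.tlo u
      rw [inner_neg_left] at this
      linarith
    have hAB : ∀ r ∈ Ioo (-1 : ℝ) 1, 0 < A r + B r := fun r _ => by
      have := h.xpos (r • u)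
      simp only [hA, hB]
      linarith
    have e1 : ∃ r ∈ Ioo (-1 : ℝ) 1, 0 < A r := by
      have h3 : ∀ᶠ r in 𝓝[<] (1 : ℝ), 0 < A r :=
        (hAc.continuousAt.eventually (lt_mem_nhds hA1)).filter_mono nhdsWithin_le_nhds
      have h4 : ∀ᶠ r in 𝓝[<] (1 : ℝ), r ∈ Ioo (-1 : ℝ) 1 := Ioo_mem_nhdsLT (by norm_num)
      obtain ⟨r, hr1, hr2⟩ := (h3.and h4).exists
      exact ⟨r, hr2, hr1⟩
    have e2 : ∃ r ∈ Ioo (-1 : ℝ) 1, 0 < B r := by
      have h3 : ∀ᶠ r in 𝓝[>] (-1 : ℝ), 0 < B r :=
        (hBc.continuousAt.eventually (lt_mem_nhds hB1)).filter_mono nhdsWithin_le_nhds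
      have h4 : ∀ᶠ r in 𝓝[>] (-1 : ℝ), r ∈ Ioo (-1 : ℝ) 1 := Ioo_mem_nhdsGT (by norm_num)
      obtain ⟨r, hr1, hr2⟩ := (h3.and h4).exists
      exact ⟨r, hr2, hr1⟩
    obtain ⟨r, hr, hrA, hrB⟩ := exists_between' hAc hBc isPreconnected_Ioo hAB e1 e2
    have hrZ : r • u ∈ Z := hsp u huZ _ hrA hrB
    have h5 : dist (0 : V) u ≤ dist (0 : V) (r • u) := by
      rw [← humin]
      exact infDist_le_dist_of_mem hrZ
    rw [dist_zero_left, dist_zero_left, norm_smul, Real.norm_eq_abs] at h5
    have h6 : |r| < 1 := abs_lt.2 hr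
    nlinarith
  -- step 2 : the line through 0 and v
  suffices hv : v ∈ Z by
    have e1 : q v = m := hv
    have e2 : q 0 = m := h0
    change q v = q 0
    rw [e1, e2]
  by_contra hvZ
  set T : Set ℝ := {R | 0 ≤ R ∧ ∀ r ∈ Icc (-R) R, r • v ∈ Z} with hT
  have hT0 : (0 : ℝ) ∈ T := ⟨le_rfl, fun r hr => by
    have : r = 0 := le_antisymm hr.2 (by simpa using hr.1)
    rwa [this, zero_smul]⟩
  have hTb : ∀ R ∈ T, R < 1 := by
    intro R hR
    by_contra hn
    push Not at hn
    exact hvZ (by simpa using hR.2 1 ⟨by linarith [hR.1], hn⟩)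
  have hTbdd : BddAbove T := ⟨1, fun R hR => (hTb R hR).le⟩
  set R := sSup T with hRdef
  have hR0 : 0 ≤ R := le_csSup hTbdd hT0
  have hsm : Continuous fun r : ℝ => r • v := by fun_prop
  have hRo : ∀ r ∈ Ioo (-R) R, r • v ∈ Z := by
    intro r hr
    have h1 : |r| < R := abs_lt.2 hr
    obtain ⟨R', hR', h2⟩ := exists_lt_of_lt_csSup ⟨0, hT0⟩ h1
    exact hR'.2 r (abs_le.1 h2.le)
  have hRT : ∀ r ∈ Icc (-R) R, r • v ∈ Z := by
    rcases hR0.eq_or_lt with h1 | h1
    · intro r hr
      rw [← h1] at hr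
      have : r = 0 := le_antisymm hr.2 (by simpa using hr.1)
      rwa [this, zero_smul]
    · have h2 : IsClosed {r : ℝ | r • v ∈ Z} := hZc.preimage hsm
      have h3 : closure (Ioo (-R) R) ⊆ {r : ℝ | r • v ∈ Z} := h2.closure_subset_iff.2 hRo
      rwa [closure_Ioo (by linarith)] at h3
  -- the key: for `r` near `R` the point `r v` is in `Z`, and the same with `-r`
  have key : ∀ s : ℝ, (s = 1 ∨ s = -1) → ∀ᶠ r in 𝓝 R, (s * r) • v ∈ Z := by
    intro s hs
    have hs2 : s * s = 1 := by
      rcases hs with rfl | rfl <;> norm_num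
    have hsm' : Continuous fun r : ℝ => (s * r) • v := by fun_prop
    -- a at ρ = s R
    have c1 : ∀ᶠ r in 𝓝 R, 0 < ξ ((s * r) • v) + inner ℝ ((s * R) • v) (Y ((s * r) • v)) -
        τ ((s * R) • v) := by
      have hc : Continuous fun r : ℝ => ξ ((s * r) • v) +
          inner ℝ ((s * R) • v) (Y ((s * r) • v)) - τ ((s * R) • v) :=
        (((hξc.comp hsm').add (continuous_const.inner (hYc.comp hsm'))).sub continuous_const)
      refine hc.continuousAt.eventually (lt_mem_nhds ?_)
      linarith [h.tup ((s * R) • v)]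
    have c2 : ∀ᶠ r in 𝓝 R, 0 < ξ ((s * r) • v) - inner ℝ ((-(s * R)) • v) (Y ((s * r) • v)) +
        τ ((-(s * R)) • v) := by
      have hc : Continuous fun r : ℝ => ξ ((s * r) • v) -
          inner ℝ ((-(s * R)) • v) (Y ((s * r) • v)) + τ ((-(s * R)) • v) :=
        (((hξc.comp hsm').sub (continuous_const.inner (hYc.comp hsm'))).add continuous_const)
      refine hc.continuousAt.eventually (lt_mem_nhds ?_)
      have := h.tlo ((-(s * R)) • v)
      rw [← neg_smul, neg_neg] at this
      change 0 < ξ ((s * R) • v) - inner ℝ ((-(s * R)) • v) (Y ((s * R) • v)) +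
        τ ((-(s * R)) • v)
      have e : (inner ℝ ((-(s * R)) • v) (Y ((s * R) • v)) : ℝ) =
          -inner ℝ ((s * R) • v) (Y ((s * R) • v)) := by
        rw [neg_smul, inner_neg_left]
      rw [e]
      linarith
    filter_upwards [c1, c2] with r d1 d2
    set A : ℝ → ℝ := fun ρ => ξ ((s * r) • v) + inner ℝ (ρ • v) (Y ((s * r) • v)) - τ (ρ • v)
      with hA
    set B : ℝ → ℝ := fun ρ => ξ ((s * r) • v) - inner ℝ (ρ • v) (Y ((s * r) • v)) + τ (ρ • v)
      with hB
    have hAc : Continuous A :=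
      ((continuous_const.add (hsm.inner continuous_const)).sub (hτc.comp hsm))
    have hBc : Continuous B :=
      ((continuous_const.sub (hsm.inner continuous_const)).add (hτc.comp hsm))
    have hsR : s * R ∈ Icc (-R) R ∧ -(s * R) ∈ Icc (-R) R := by
      rcases hs with rfl | rfl
      · constructor <;> constructor <;> linarith
      · constructor <;> constructor <;> linarith
    obtain ⟨ρ, hρ, hρA, hρB⟩ := exists_between' hAc hBc (isPreconnected_Icc (a := -R) (b := R))
      (fun ρ _ => by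
        have := h.xpos ((s * r) • v)
        simp only [hA, hB]
        linarith)
      ⟨s * R, hsR.1, d1⟩ ⟨-(s * R), hsR.2, d2⟩
    exact hsp (ρ • v) (hRT ρ hρ) _ hρA hρB
  have k1 := key 1 (Or.inl rfl)
  have k2 := key (-1) (Or.inr rfl)
  obtain ⟨ε, hε, hball⟩ := Metric.eventually_nhds_iff.1 (k1.and k2)
  have hbig : R + ε / 2 ∈ T := by
    refine ⟨by linarith, fun r hr => ?_⟩
    by_cases hr1 : |r| ≤ R
    · exact hRT r (abs_le.1 hr1)
    · push Not at hr1
      rcases le_or_gt 0 r with hr0 | hr0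
      · rw [abs_of_nonneg hr0] at hr1
        have := (hball (y := r) (by rw [Real.dist_eq, abs_of_pos (by linarith)]; linarith [hr.2])).1
        simpa using this
      · rw [abs_of_neg hr0] at hr1
        have := (hball (y := -r) (by
          rw [Real.dist_eq, abs_of_pos (by linarith)]; linarith [hr.1])).2
        simpa using this
  have := le_csSup hTbdd hbig
  linarith

end

end Pool.Agent.Helper49.MI
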